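import Pool.Agent.PPS.X1
import Pool.Agent.PPS.Fld
import Pool.Agent.PP.KA4

set_option autoImplicit false

open NumberField Ideal IsDedekindDomain
open scoped Classical

/-!
# [P7-Y1] isomorphism classes of curves with `j = -3375` and good reduction above `2`
-/

namespace PP

variable {K : Type} [Field K] [NumberField K]

theorem y1_coeffs (F : Fld K) {δ : 𝓞 K} (h : F.Good δ) :
    ∃ c : 𝓞 K, F.curve δ = ⟨1, -(((1 + 3 * c : 𝓞 K)) : K), 0, -((δ ^ 2 : 𝓞 K) : K), 0⟩ := by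
  obtain ⟨c, hc⟩ := h.four
  refine ⟨c, ?_⟩
  have h1 : (δ : K) * F.r = 1 + 4 * (c : K) := by
    have h2 := congrArg (algebraMap (𝓞 K) K) (sub_eq_iff_eq_add.1 hc)
    rw [map_mul, map_add, map_mul, map_one, map_ofNat] at h2
    rw [← F.coe_rr]
    linear_combination h2
  have h3 : ((1 + 3 * c : 𝓞 K) : K) = 1 + 3 * (c : K) := by
    have h4 : algebraMap (𝓞 K) K 3 = 3 := map_ofNat (algebraMap (𝓞 K) K) 3
    simp [h4]
  have h4 : ((δ ^ 2 : 𝓞 K) : K) = (δ : K) ^ 2 := by simp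
  unfold Fld.curve
  rw [h3, h4]
  congr 1
  linear_combination (-3 / 4 : K) * h1

theorem y1_Δ (F : Fld K) (δ : 𝓞 K) : (F.curve δ).Δ = (δ : K) ^ 6 := by
  have hr := F.hr
  simp only [Fld.curve, WeierstrassCurve.Δ, WeierstrassCurve.b₂, WeierstrassCurve.b₄,
    WeierstrassCurve.b₆, WeierstrassCurve.b₈]
  linear_combination (9 * (δ : K) ^ 6) * hr

theorem y1_c₄ (F : Fld K) (δ : 𝓞 K) : (F.curve δ).c₄ = -15 * (δ : K) ^ 2 := by
  have hr := F.hr
  simp only [Fld.curve, WeierstrassCurve.c₄, WeierstrassCurve.b₂, WeierstrassCurve.b₄]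
  linear_combination (9 * (δ : K) ^ 2) * hr

theorem y1_ne {F : Fld K} {δ : 𝓞 K} (h : F.Good δ) : (δ : K) ≠ 0 := by
  intro h0
  exact h.sqf.ne_zero (by exact_mod_cast h0)

theorem y1_elliptic {F : Fld K} {δ : 𝓞 K} (h : F.Good δ) : (F.curve δ).IsElliptic := by
  refine ⟨?_⟩
  rw [y1_Δ]
  exact isUnit_iff_ne_zero.2 (pow_ne_zero 6 (y1_ne h))

theorem y1_j_of (E : WeierstrassCurve K) [E.IsElliptic] (h : E.c₄ ^ 3 = -3375 * E.Δ) :
    E.j = -3375 := by
  have h1 : E.Δ ≠ 0 := E.isUnit_Δ.ne_zero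
  rw [WeierstrassCurve.j, h, Units.val_inv_eq_inv_val, WeierstrassCurve.coe_Δ']
  field_simp

theorem y1_of_j (E : WeierstrassCurve K) [E.IsElliptic] (h : E.j = -3375) :
    E.c₄ ^ 3 = -3375 * E.Δ := by
  have h1 : E.Δ ≠ 0 := E.isUnit_Δ.ne_zero
  rw [WeierstrassCurve.j, Units.val_inv_eq_inv_val, WeierstrassCurve.coe_Δ'] at h
  field_simp at h
  linear_combination h

theorem y1_smul_j (E : WeierstrassCurve K) (C : WeierstrassCurve.VariableChange K)
    (h : ∃ _ : E.IsElliptic, E.j = -3375) : ∃ _ : (C • E).IsElliptic, (C • E).j = -3375 := by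
  obtain ⟨h1, h2⟩ := h
  refine ⟨inferInstance, ?_⟩
  rw [WeierstrassCurve.variableChange_j]
  exact h2

theorem y1_goodAt_smul {v : HeightOneSpectrum (𝓞 K)} (E : WeierstrassCurve K)
    (C : WeierstrassCurve.VariableChange K) : TU.GoodAt v (C • E) ↔ TU.GoodAt v E := by
  constructor
  · rintro ⟨C', h⟩
    refine ⟨C' * C, ?_⟩
    rw [mul_smul]
    exact h
  · rintro ⟨C', h⟩
    refine ⟨C' * C⁻¹, ?_⟩
    rw [mul_smul, inv_smul_smul]
    exact h

/-- the primes of bad reduction are those that divide `δ` -/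
theorem y1_goodAt {F : Fld K} {δ : 𝓞 K} (h : F.Good δ) (v : HeightOneSpectrum (𝓞 K)) :
    TU.GoodAt v (F.curve δ) ↔ δ ∉ v.asIdeal := by
  constructor
  · rintro ⟨C, -, -, -, -, -, h6⟩ hδ
    rw [WeierstrassCurve.variableChange_Δ, y1_Δ, map_mul, map_pow, map_pow] at h6
    have hsq : δ ∉ v.asIdeal ^ 2 := PPS.sf_not_sq (PPS.dat F) h.sqf v
    rw [PPS.val_exp hδ hsq] at h6
    set a := v.valuation K ((C.u⁻¹ : Kˣ) : K) with ha
    have ha0 : a ≠ 0 := by
      intro h0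
      rw [h0, zero_pow (by norm_num), zero_mul] at h6
      exact zero_ne_one h6
    obtain ⟨n, hn⟩ : ∃ n : ℤ, a = WithZero.exp n := ⟨_, (WithZero.exp_log ha0).symm⟩
    rw [hn, ← WithZero.exp_nsmul, ← WithZero.exp_nsmul, ← WithZero.exp_add,
      ← WithZero.exp_zero, WithZero.exp_inj] at h6
    simp only [nsmul_eq_mul] at h6
    push_cast at h6
    omega
  · intro hδ
    obtain ⟨c, hc⟩ := y1_coeffs F h
    refine ⟨1, ?_⟩
    rw [one_smul, y1_Δ, map_pow, PPS.val_one hδ, one_pow]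
    rw [hc]
    refine ⟨?_, ?_, ?_, ?_, ?_, rfl⟩
    · simp
    · rw [Valuation.map_neg]
      exact v.valuation_le_one _
    · simp
    · rw [Valuation.map_neg]
      exact v.valuation_le_one _
    · simp

/-- normal form -/
theorem y1_exists (F : Fld K) (E : WeierstrassCurve K) (hE : ∃ _ : E.IsElliptic, E.j = -3375)
    (hgood : ∀ v : HeightOneSpectrum (𝓞 K), (2 : 𝓞 K) ∈ v.asIdeal → TU.GoodAt v E) :
    ∃ (δ : 𝓞 K) (C : WeierstrassCurve.VariableChange K), F.Good δ ∧ E = C • F.curve δ := by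
  obtain ⟨hell, hj⟩ := hE
  obtain ⟨δ, C, hδ, hC⟩ := PPS.exists_par (PPS.dat F) E hj hgood
  obtain ⟨C', hC'⟩ := PPS.curve_eq (F := F) (δ := δ)
  refine ⟨δ, C * C'⁻¹, ⟨hδ.sf, ?_⟩, ?_⟩
  · rw [← PPS.dat_rr]
    exact hδ.four
  · rw [hC', mul_smul, inv_smul_smul]
    exact hC

theorem y1_unique {F : Fld K} {δ δ' : 𝓞 K} (h : F.Good δ) (h' : F.Good δ')
    (C : WeierstrassCurve.VariableChange K) (hC : F.curve δ = C • F.curve δ') : δ = δ' := by
  obtain ⟨C₁, h₁⟩ := PPS.curve_eq (F := F) (δ := δ)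
  obtain ⟨C₂, h₂⟩ := PPS.curve_eq (F := F) (δ := δ')
  apply PPS.par_unique (PPS.dat F) (PPS.par h) (PPS.par h') (C₁⁻¹ * C * C₂)
  rw [mul_smul, mul_smul, ← h₂, ← hC, h₁, inv_smul_smul]

/-- the curves: complex multiplication by the ring of integers, good reduction above `2` -/
def CMGood (E : WeierstrassCurve K) : Prop :=
  (∃ _ : E.IsElliptic, E.j = -3375) ∧
    ∀ v : HeightOneSpectrum (𝓞 K), (2 : 𝓞 K) ∈ v.asIdeal → TU.GoodAt v E

/-- the product of the norms of the primes of bad reduction -/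
noncomputable def badNorm (E : WeierstrassCurve K) : ℕ :=
  ∏ᶠ v ∈ {v : HeightOneSpectrum (𝓞 K) | ¬ TU.GoodAt v E}, absNorm v.asIdeal

theorem y1_badNorm_smul (E : WeierstrassCurve K) (C : WeierstrassCurve.VariableChange K) :
    badNorm (C • E) = badNorm E := by
  unfold badNorm
  simp only [y1_goodAt_smul]

theorem y1_badNorm {F : Fld K} {δ : 𝓞 K} (h : F.Good δ) :
    badNorm (F.curve δ) = absNorm (span {δ}) := by
  unfold badNorm
  rw [h.absNorm_eq]
  have h0 : δ ≠ 0 := h.sqf.ne_zero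
  have hset : {v : HeightOneSpectrum (𝓞 K) | ¬ TU.GoodAt v (F.curve δ)} =
      (((supp δ).map (Function.Embedding.subtype _) : Finset (HeightOneSpectrum (𝓞 K))) :
        Set (HeightOneSpectrum (𝓞 K))) := by
    ext v
    rw [Set.mem_ofPred_eq, y1_goodAt h, not_not, Finset.mem_coe, Finset.mem_map]
    constructor
    · intro hv
      exact ⟨⟨v, (PPS.par h).two_not hv⟩, (mem_supp h0 _).2 hv, rfl⟩
    · rintro ⟨u, hu, rfl⟩
      exact (mem_supp h0 u).1 hu
  rw [hset, finprod_mem_coe_finset, Finset.prod_map]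
  rfl

/-- isomorphism classes of Weierstrass curves -/
abbrev Cls (K : Type) [Field K] : Type :=
  MulAction.orbitRel.Quotient (WeierstrassCurve.VariableChange K) (WeierstrassCurve K)

/-- the isomorphism classes of the curves with `badNorm ≤ X` such that `Q` holds for all curves of the class -/
def classes (K : Type) [Field K] [NumberField K] (Q : WeierstrassCurve K → Prop) (X : ℕ) :
    Set (Cls K) :=
  {c | ∃ E : WeierstrassCurve K, Quotient.mk _ E = c ∧ CMGood E ∧ badNorm E ≤ X ∧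
    ∀ C : WeierstrassCurve.VariableChange K, Q (C • E)}

theorem y1_cmGood {F : Fld K} {δ : 𝓞 K} (h : F.Good δ) : CMGood (F.curve δ) := by
  refine ⟨⟨y1_elliptic h, ?_⟩, ?_⟩
  · have := y1_elliptic h
    apply y1_j_of
    rw [y1_c₄, y1_Δ]
    ring
  · intro v hv
    rw [y1_goodAt h]
    exact fun h1 => (PPS.par h).two_not h1 hv

/-- the classes are in bijection with the parameters -/
theorem y1_bij (F : Fld K) (Q : WeierstrassCurve K → Prop) (X : ℕ) :
    Set.BijOn (fun δ => (Quotient.mk _ (F.curve δ) : Cls K))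
      {δ : 𝓞 K | F.Good δ ∧ absNorm (span {δ}) ≤ X ∧
        ∀ C : WeierstrassCurve.VariableChange K, Q (C • F.curve δ)} (classes K Q X) := by
  refine ⟨?_, ?_, ?_⟩
  · rintro δ ⟨h1, h2, h3⟩
    exact ⟨F.curve δ, rfl, y1_cmGood h1, by rw [y1_badNorm h1]; exact h2, h3⟩
  · rintro δ ⟨h1, -⟩ δ' ⟨h1', -⟩ h
    have h2 : (MulAction.orbitRel (WeierstrassCurve.VariableChange K) (WeierstrassCurve K)).r
        (F.curve δ) (F.curve δ') := Quotient.exact h
    obtain ⟨C, hC⟩ := h2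
    exact y1_unique h1 h1' C hC.symm
  · rintro _ ⟨E, rfl, ⟨hj, hg⟩, hX, hQ⟩
    obtain ⟨δ, C, hδ, rfl⟩ := y1_exists F E hj hg
    refine ⟨δ, ⟨hδ, ?_, ?_⟩, ?_⟩
    · rw [← y1_badNorm hδ, ← y1_badNorm_smul _ C]
      exact hX
    · intro C'
      have := hQ (C' * C⁻¹)
      rwa [mul_smul, inv_smul_smul] at this
    · apply Quotient.sound
      exact ⟨C⁻¹, by simp⟩

theorem y1_ncard (F : Fld K) (Q : WeierstrassCurve K → Prop) (X : ℕ) :
    (classes K Q X).ncard = {δ : 𝓞 K | F.Good δ ∧ absNorm (span {δ}) ≤ X ∧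
        ∀ C : WeierstrassCurve.VariableChange K, Q (C • F.curve δ)}.ncard := by
  rw [← (y1_bij F Q X).image_eq, (y1_bij F Q X).injOn.ncard_image]

theorem y1_finite (F : Fld K) (Q : WeierstrassCurve K → Prop) (X : ℕ) :
    (classes K Q X).Finite := by
  rw [← (y1_bij F Q X).image_eq]
  apply Set.Finite.image
  exact (F.finite_le X).subset fun δ h => ⟨h.1, h.2.1⟩

end PP
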