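import Pool.Agent.PP.Y1
import Pool.Agent.PP.M6c
import Pool.Agent.PPA.V10

set_option autoImplicit false

open NumberField Ideal IsDedekindDomain
open scoped Classical

/-!
# [P7-Y2] the 2-part of the Birch and Swinnerton-Dyer conjecture for a positive proportion of the curves with complex multiplication by the
ring of integers of `ℚ(√-7)` and good reduction above `2`, over `ℚ(√-7)`
-/

namespace PP

variable {K : Type} [Field K] [NumberField K]

theorem y2_ar (F : Fld K) {c : ℝ} (hc : c < c5) : ∃ X0 : ℕ, ∀ X : ℕ, X0 ≤ X →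
    c * ({δ : 𝓞 K | F.Good δ ∧ absNorm (span {δ}) ≤ X ∧ True}.ncard : ℝ) ≤
      ({δ : 𝓞 K | F.Good δ ∧ absNorm (span {δ}) ≤ X ∧ tau F.arc dl (supp δ) = 1}.ncard : ℝ) := by
  have hdg : F.ar.dg ≠ 0 := by
    intro h
    have := congrFun h ()
    change (1 : ZMod 2) = 0 at this
    exact one_ne_zero this
  obtain ⟨X0, h⟩ := F.ar.density hdg hc
  refine ⟨X0, fun X hX => ?_⟩
  have h1 := h X hX
  rw [F.ncard_le X (fun _ => True), F.ncard_le X (fun T => tau F.arc dl T = 1)]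
  convert h1 using 3
  · congr 1
    ext T
    simp only [and_true, Finset.mem_filter]
    rfl
  · congr 1

/-- **the density theorem** -/
theorem y2_density (F : Fld K) {c : ℝ} (hc : c < c5) : ∃ X0 : ℕ, ∀ X : ℕ, X0 ≤ X →
    c * ((classes K (fun _ => True) X).ncard : ℝ) ≤
      ((classes K SBSD2.TwoPartRankZero X).ncard : ℝ) := by
  obtain ⟨X0, h⟩ := y2_ar F hc
  refine ⟨X0, fun X hX => ?_⟩
  rw [y1_ncard F, y1_ncard F]
  have h1 : {δ : 𝓞 K | F.Good δ ∧ absNorm (span {δ}) ≤ X ∧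
      ∀ _ : WeierstrassCurve.VariableChange K, True} =
      {δ : 𝓞 K | F.Good δ ∧ absNorm (span {δ}) ≤ X ∧ True} := by
    ext δ
    simp
  rw [h1]
  refine (h X hX).trans ?_
  have h2 : {δ : 𝓞 K | F.Good δ ∧ absNorm (span {δ}) ≤ X ∧ tau F.arc dl (supp δ) = 1} ⊆
      {δ : 𝓞 K | F.Good δ ∧ absNorm (span {δ}) ≤ X ∧
        ∀ C : WeierstrassCurve.VariableChange K, SBSD2.TwoPartRankZero (C • F.curve δ)} := by
    rintro δ ⟨h1, h2, h3⟩
    exact ⟨h1, h2, fun C => twoPart F h1 h3 C⟩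
  have h3 := Set.ncard_le_ncard h2 ((F.finite_le X).subset fun δ h => ⟨h.1, h.2.1⟩)
  exact_mod_cast h3

/-- there are many classes -/
theorem y2_many (F : Fld K) : ∃ c : ℝ, 0 < c ∧ ∃ X0 : ℕ, ∀ X : ℕ, X0 ≤ X →
    c * X ≤ ((classes K (fun _ => True) X).ncard : ℝ) := by
  obtain ⟨c, hc, X0, h⟩ := F.ar.card_class (fun _ => 1) (by
    intro h
    have := congrFun h ()
    exact one_ne_zero this)
  refine ⟨c, hc, X0, fun X hX => ?_⟩
  refine (h X hX).trans (le_of_eq ?_)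
  rw [y1_ncard F]
  have h1 : {δ : 𝓞 K | F.Good δ ∧ absNorm (span {δ}) ≤ X ∧
      ∀ _ : WeierstrassCurve.VariableChange K, True} =
      {δ : 𝓞 K | F.Good δ ∧ absNorm (span {δ}) ≤ X ∧ True} := by
    ext δ
    simp
  rw [h1, F.ncard_le X (fun _ => True)]
  congr 2
  ext T
  simp only [and_true, Finset.mem_filter]
  have : ∑ v ∈ T, ∑ γ : Unit, (1 : ZMod 2) * F.ar.g γ v = ∑ v ∈ T, dl v := by
    refine Finset.sum_congr rfl fun v _ => ?_
    rw [Finset.univ_unique, Finset.sum_singleton, one_mul]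
    rfl
  rw [this]

/-- there are finitely many primes of bad reduction -/
theorem y2_bad {K : Type} [Field K] [NumberField K] (hK : Module.finrank ℚ K = 2)
    (hr : ∃ r : K, r ^ 2 = -7) (E : WeierstrassCurve K) (hE : CMGood E) :
    {v : HeightOneSpectrum (𝓞 K) | ¬ TU.GoodAt v E}.Finite := by
  obtain ⟨r, hr⟩ := hr
  let F : Fld K := ⟨r, hr, hK⟩
  obtain ⟨δ, C, hδ, rfl⟩ := y1_exists F E hE.1 hE.2
  have h0 : δ ≠ 0 := hδ.sqf.ne_zero
  have hset : {v : HeightOneSpectrum (𝓞 K) | ¬ TU.GoodAt v (C • F.curve δ)} =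
      (((supp δ).map (Function.Embedding.subtype _) : Finset (HeightOneSpectrum (𝓞 K))) :
        Set (HeightOneSpectrum (𝓞 K))) := by
    ext v
    rw [Set.mem_ofPred_eq, y1_goodAt_smul, y1_goodAt hδ, not_not, Finset.mem_coe, Finset.mem_map]
    constructor
    · intro hv
      exact ⟨⟨v, (PPS.par hδ).two_not hv⟩, (mem_supp h0 _).2 hv, rfl⟩
    · rintro ⟨u, hu, rfl⟩
      exact (mem_supp h0 u).1 hu
  rw [hset]
  exact Finset.finite_toSet _

/-- **the 2-part of the strong conjecture for at least 28.87 percent of all curves** -/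
theorem final {K : Type} [Field K] [NumberField K] (hK : Module.finrank ℚ K = 2)
    (hr : ∃ r : K, r ^ 2 = -7) {Q : WeierstrassCurve K → Prop}
    (hQ : ∀ E, SBSD2.TwoPartRankZero E → Q E) :
    (∀ X : ℕ, (classes K (fun _ => True) X).Finite) ∧
    (∃ (c : ℝ) (X0 : ℕ), 0 < c ∧ ∀ X : ℕ, X0 ≤ X →
      c * X ≤ ((classes K (fun _ => True) X).ncard : ℝ)) ∧
    ∀ c : ℝ, c < 188 / 651 → ∃ X0 : ℕ, ∀ X : ℕ, X0 ≤ X →
      c * ((classes K (fun _ => True) X).ncard : ℝ) ≤ ((classes K Q X).ncard : ℝ) := by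
  obtain ⟨r, hr⟩ := hr
  let F : Fld K := ⟨r, hr, hK⟩
  refine ⟨fun X => y1_finite F _ X, ?_, fun c hc => ?_⟩
  · obtain ⟨c, hc, X1, h1⟩ := y2_many F
    exact ⟨c, X1, hc, h1⟩
  · obtain ⟨X0, h⟩ := y2_density F (c := c) hc
    refine ⟨X0, fun X hX => (h X hX).trans ?_⟩
    have h1 : classes K SBSD2.TwoPartRankZero X ⊆ classes K Q X := by
      rintro _ ⟨E, rfl, h1, h2, h3⟩
      exact ⟨E, rfl, h1, h2, fun C => hQ _ (h3 C)⟩
    exact_mod_cast Set.ncard_le_ncard h1 (y1_finite F _ X)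

end PP
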