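import Pool.Agent.PP.Y2

set_option autoImplicit false

open NumberField Ideal IsDedekindDomain
open scoped Classical

/-!
# [P7-Y3] all curves with `j = -3375` over `ℚ(√-7)` (without a condition at `2`)
-/

namespace PP

variable {K : Type} [Field K] [NumberField K]

/-- a squarefree element is the product of its primes -/
theorem y3_prod {d : 𝓞 K} (hd : d ≠ 0)
    (hsq : ∀ v : HeightOneSpectrum (𝓞 K), d ∈ v.asIdeal → d ∉ v.asIdeal ^ 2) :
    ∃ S : Finset (HeightOneSpectrum (𝓞 K)), span {d} = ∏ v ∈ S, v.asIdeal ∧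
      ∀ v, v ∈ S ↔ d ∈ v.asIdeal := by
  have h0 : span {d} ≠ 0 := by
    rw [Ne, Ideal.zero_eq_bot, Ideal.span_singleton_eq_bot]
    exact hd
  have hfin : {v : HeightOneSpectrum (𝓞 K) | d ∈ v.asIdeal}.Finite :=
    (Ideal.finite_factors h0).subset fun v hv => Ideal.dvd_span_singleton.2 hv
  have hmem : ∀ v, v ∈ hfin.toFinset ↔ d ∈ v.asIdeal := fun v => by
    rw [Set.Finite.mem_toFinset]
    rfl
  refine ⟨hfin.toFinset, ?_, hmem⟩
  have hdv : ∏ v ∈ hfin.toFinset, v.asIdeal ∣ span {d} := by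
    refine Finset.prod_dvd_of_coprime (fun v _ w _ hvw => ?_) fun v hv =>
      Ideal.dvd_span_singleton.2 ((hmem v).1 hv)
    exact Ideal.isCoprime_iff_sup_eq.2 (v.isMaximal.coprime_of_ne w.isMaximal
      fun h1 => hvw (HeightOneSpectrum.ext h1))
  obtain ⟨J, hJ⟩ := hdv
  have hJ1 : J = ⊤ := by
    by_contra hne
    obtain ⟨w, hw, hJw⟩ := Ideal.exists_le_maximal J hne
    have hle : span {d} ≤ w := by
      rw [hJ]
      exact Ideal.mul_le_right.trans hJw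
    have hw0 : w ≠ ⊥ := by
      rintro rfl
      exact h0 (le_bot_iff.1 hle)
    obtain ⟨v, hv⟩ : ∃ v : HeightOneSpectrum (𝓞 K), v.asIdeal = w := ⟨⟨w, hw.isPrime, hw0⟩, rfl⟩
    rw [← hv] at hJw hle
    have hdv : d ∈ v.asIdeal := hle (Ideal.mem_span_singleton_self _)
    refine hsq v hdv ?_
    have h1 : v.asIdeal ^ 2 ∣ span {d} := by
      rw [hJ, sq]
      exact mul_dvd_mul (Finset.dvd_prod_of_mem _ ((hmem v).2 hdv)) (Ideal.dvd_iff_le.2 hJw)
    exact Ideal.dvd_span_singleton.1 h1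
  rw [hJ, hJ1, Ideal.mul_top]

/-- the discriminant -/
theorem y3_Δ (F : Fld K) (δ : 𝓞 K) :
    (TTS.Ws (PPS.dd (PPS.dat F) δ)).Δ = (2 * F.r) ^ 12 * (δ : K) ^ 6 := by
  rw [TTS.Ws_Δ, PPS.dd, PPS.dat_r]
  have hr := F.hr
  have h12 : F.r ^ 12 = 117649 := by
    have : F.r ^ 12 = (F.r ^ 2) ^ 6 := by ring
    rw [this, hr]
    norm_num
  have h6 : F.r ^ 6 = -343 := by
    have : F.r ^ 6 = (F.r ^ 2) ^ 3 := by ring
    rw [this, hr]
    norm_num
  rw [mul_pow, mul_pow, h12, h6]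
  ring

/-- every prime that divides the squarefree parameter is bad -/
theorem y3_bad (F : Fld K) {δ : 𝓞 K} (hδ : Squarefree δ) {v : HeightOneSpectrum (𝓞 K)}
    (hv : δ ∈ v.asIdeal) (C : WeierstrassCurve.VariableChange K) :
    ¬ TU.GoodAt v (C • TTS.Ws (PPS.dd (PPS.dat F) δ)) := by
  intro hg
  obtain ⟨C', -, -, -, -, -, h6⟩ := (y1_goodAt_smul _ C).1 hg
  rw [WeierstrassCurve.variableChange_Δ, y3_Δ, map_mul, map_mul, map_pow, map_pow, map_pow,
    PPS.val_exp hv (PPS.sf_not_sq (PPS.dat F) hδ v)] at h6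
  have hr0 : F.r ≠ 0 := by
    intro h0
    have := F.hr
    rw [h0] at this
    norm_num at this
  have ha0 : v.valuation K ((C'.u⁻¹ : Kˣ) : K) ≠ 0 := (map_ne_zero _).2 (Units.ne_zero _)
  have hb0 : v.valuation K (2 * F.r) ≠ 0 := (map_ne_zero _).2 (mul_ne_zero two_ne_zero hr0)
  obtain ⟨n, hn⟩ : ∃ n : ℤ, v.valuation K ((C'.u⁻¹ : Kˣ) : K) = WithZero.exp n :=
    ⟨_, (WithZero.exp_log ha0).symm⟩
  obtain ⟨m, hm⟩ : ∃ m : ℤ, v.valuation K (2 * F.r) = WithZero.exp m :=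
    ⟨_, (WithZero.exp_log hb0).symm⟩
  rw [hn, hm, ← WithZero.exp_nsmul, ← WithZero.exp_nsmul, ← WithZero.exp_nsmul, ← WithZero.exp_add,
    ← WithZero.exp_add, ← WithZero.exp_zero, WithZero.exp_inj] at h6
  simp only [nsmul_eq_mul] at h6
  push_cast at h6
  omega

/-- the primes outside `2 √-7 δ` are good -/
theorem y3_good (F : Fld K) {δ : 𝓞 K} {v : HeightOneSpectrum (𝓞 K)}
    (hv : 2 * F.rr * δ ∉ v.asIdeal) (C : WeierstrassCurve.VariableChange K) :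
    TU.GoodAt v (C • TTS.Ws (PPS.dd (PPS.dat F) δ)) := by
  rw [y1_goodAt_smul]
  refine ⟨1, ?_⟩
  rw [one_smul, y3_Δ]
  have h2r : 2 * F.rr ∉ v.asIdeal := fun h => hv (Ideal.mul_mem_right _ _ h)
  have hδ : δ ∉ v.asIdeal := fun h => hv (Ideal.mul_mem_left _ _ h)
  have e1 : (2 * F.r : K) = ((2 * F.rr : 𝓞 K) : K) := by
    rw [← F.coe_rr]
    have h4 : algebraMap (𝓞 K) K 2 = 2 := map_ofNat (algebraMap (𝓞 K) K) 2
    simp [h4]
  have hd : PPS.dd (PPS.dat F) δ = ((δ * F.rr : 𝓞 K) : K) := by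
    rw [PPS.dd, PPS.dat_r, ← F.coe_rr]
    simp
  refine ⟨?_, ?_, ?_, ?_, ?_, ?_⟩
  · simp [TTS.Ws]
  · simp [TTS.Ws]
  · simp [TTS.Ws]
  · have e2 : (TTS.Ws (PPS.dd (PPS.dat F) δ)).a₄ = ((-35 * (δ * F.rr) ^ 2 : 𝓞 K) : K) := by
      rw [hd]
      have h4 : algebraMap (𝓞 K) K 35 = 35 := map_ofNat (algebraMap (𝓞 K) K) 35
      simp [TTS.Ws, h4]
    rw [e2]
    exact v.valuation_le_one _
  · have e2 : (TTS.Ws (PPS.dd (PPS.dat F) δ)).a₆ = ((-98 * (δ * F.rr) ^ 3 : 𝓞 K) : K) := by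
      rw [hd]
      have h4 : algebraMap (𝓞 K) K 98 = 98 := map_ofNat (algebraMap (𝓞 K) K) 98
      simp [TTS.Ws, h4]
    rw [e2]
    exact v.valuation_le_one _
  · rw [e1, map_mul, map_pow, map_pow, PPS.val_one h2r, PPS.val_one hδ, one_pow, one_pow, mul_one]

/-- the norm of the parameter is at most the product of the norms of the bad primes -/
theorem y3_badNorm (F : Fld K) {δ : 𝓞 K} (hδ : Squarefree δ) (C : WeierstrassCurve.VariableChange K) :
    absNorm (span {δ}) ≤ badNorm (C • TTS.Ws (PPS.dd (PPS.dat F) δ)) := by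
  obtain ⟨S, hS, hmem⟩ := y3_prod hδ.ne_zero fun v _ => PPS.sf_not_sq (PPS.dat F) hδ v
  have hr0 : F.rr ≠ 0 := by
    intro h0
    have := F.rr_sq
    rw [h0] at this
    norm_num at this
  have h0 : span {2 * F.rr * δ} ≠ 0 := by
    rw [Ne, Ideal.zero_eq_bot, Ideal.span_singleton_eq_bot]
    exact mul_ne_zero (mul_ne_zero two_ne_zero hr0) hδ.ne_zero
  have hfin : {v : HeightOneSpectrum (𝓞 K) |
      ¬ TU.GoodAt v (C • TTS.Ws (PPS.dd (PPS.dat F) δ))}.Finite := by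
    refine (Ideal.finite_factors h0).subset fun v hv => Ideal.dvd_span_singleton.2 ?_
    by_contra h
    exact hv (y3_good F h C)
  unfold badNorm
  rw [finprod_mem_eq_finite_toFinset_prod _ hfin, hS, map_prod]
  refine Finset.prod_le_prod_of_subset_of_one_le' ?_ ?_
  · intro v hv
    rw [Set.Finite.mem_toFinset]
    exact y3_bad F hδ ((hmem v).1 hv) C
  · intro v _ _
    rw [Nat.one_le_iff_ne_zero, Ne, Ideal.absNorm_eq_zero_iff]
    exact v.ne_bot

/-- the isomorphism classes of all elliptic curves with `j = -3375` and `badNorm ≤ X` -/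
def allClasses (K : Type) [Field K] [NumberField K] (X : ℕ) : Set (Cls K) :=
  {c | ∃ E : WeierstrassCurve K, Quotient.mk _ E = c ∧ (∃ _ : E.IsElliptic, E.j = -3375) ∧
    badNorm E ≤ X}

theorem y3_subset (F : Fld K) (X : ℕ) : allClasses K X ⊆
    (fun δ : 𝓞 K => (Quotient.mk _ (TTS.Ws (PPS.dd (PPS.dat F) δ)) : Cls K)) ''
      {δ : 𝓞 K | absNorm (span {δ}) ≤ X} := by
  rintro _ ⟨E, rfl, ⟨hell, hj⟩, hX⟩
  obtain ⟨d, C, C', hd, hC, -⟩ := TTS.exists_Ws E hj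
  have hr0 : F.r ≠ 0 := by
    intro h0
    have := F.hr
    rw [h0] at this
    norm_num at this
  obtain ⟨δ, s, hδ, hs, hds⟩ := PPS.sqf_rep (PPS.dat F) (d * F.r) (mul_ne_zero hd hr0)
  have hx : s / F.r ≠ 0 := div_ne_zero hs hr0
  have hdx : d = (s / F.r) ^ 2 * PPS.dd (PPS.dat F) δ := by
    rw [PPS.dd, PPS.dat_r, div_pow]
    field_simp
    linear_combination hds
  obtain ⟨C₁, hC₁, -⟩ := TTS.Ws_scale (d := PPS.dd (PPS.dat F) δ) hx
  have hE : E = (C * C₁) • TTS.Ws (PPS.dd (PPS.dat F) δ) := by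
    rw [hC, mul_smul, ← hC₁, ← hdx]
  refine ⟨δ, ?_, ?_⟩
  · rw [hE] at hX
    exact (y3_badNorm F hδ _).trans hX
  · apply Quotient.sound
    refine ⟨(C * C₁)⁻¹, ?_⟩
    simp only
    rw [hE, inv_smul_smul]

/-- the elements of bounded norm -/
theorem y3_count (F : Fld K) (X : ℕ) : {δ : 𝓞 K | absNorm (span {δ}) ≤ X}.Finite ∧
    ({δ : 𝓞 K | absNorm (span {δ}) ≤ X}.ncard : ℝ) ≤ 21 * X + 3 := by
  set B : ℤ := (Nat.sqrt X : ℤ) with hB
  have hB0 : 0 ≤ B := Int.natCast_nonneg _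
  have hBX : B ^ 2 ≤ X := by
    have := Nat.sqrt_le' X
    rw [hB]
    exact_mod_cast this
  have hXB : (X : ℤ) < (B + 1) ^ 2 := by
    have := Nat.lt_succ_sqrt' X
    rw [hB]
    exact_mod_cast this
  let I : Finset (ℤ × ℤ) := Finset.Icc (-(2 * B + 1)) (2 * B + 1) ×ˢ Finset.Icc (-B) B
  have hsub : {δ : 𝓞 K | absNorm (span {δ}) ≤ X} ⊆
      ((I.image fun p : ℤ × ℤ => (p.1 + p.2 * F.w : 𝓞 K) : Finset (𝓞 K)) : Set (𝓞 K)) := by
    intro δ hδ
    obtain ⟨a, b, rfl⟩ := F.repr δ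
    rw [Set.mem_ofPred_eq] at hδ
    have h1 := F.absNorm_eq a b
    have h2 : a ^ 2 + a * b + 2 * b ^ 2 ≤ (X : ℤ) := by
      rw [← h1]
      exact_mod_cast hδ
    rw [Finset.coe_image]
    refine ⟨(a, b), ?_, rfl⟩
    rw [Finset.mem_coe, Finset.mem_product, Finset.mem_Icc, Finset.mem_Icc]
    have h3 : b ^ 2 < (B + 1) ^ 2 := by nlinarith [sq_nonneg (2 * a + b)]
    have h4 : (2 * a + b) ^ 2 < (2 * B + 2) ^ 2 := by nlinarith [sq_nonneg b]
    have h5 := abs_lt_of_sq_lt_sq' h3 (by linarith)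
    have h6 := abs_lt_of_sq_lt_sq' h4 (by linarith)
    refine ⟨⟨?_, ?_⟩, ⟨?_, ?_⟩⟩
    · change -(2 * B + 1) ≤ a
      omega
    · change a ≤ 2 * B + 1
      omega
    · change -B ≤ b
      omega
    · change b ≤ B
      omega
  have hfin := (Finset.finite_toSet (I.image fun p : ℤ × ℤ => (p.1 + p.2 * F.w : 𝓞 K))).subset hsub
  refine ⟨hfin, ?_⟩
  have h1 := Set.ncard_le_ncard hsub (Finset.finite_toSet _)
  rw [Set.ncard_coe_finset] at h1
  have h2 : (I.image fun p : ℤ × ℤ => (p.1 + p.2 * F.w : 𝓞 K)).card ≤ I.card := Finset.card_image_le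
  have h3 : (I.card : ℤ) = (4 * B + 3) * (2 * B + 1) := by
    simp only [I]
    rw [Finset.card_product, Int.card_Icc, Int.card_Icc, Nat.cast_mul, Int.toNat_of_nonneg (by linarith),
      Int.toNat_of_nonneg (by linarith)]
    ring
  have h4 : (I.card : ℤ) ≤ 21 * X + 3 := by
    rw [h3]
    rcases eq_or_lt_of_le hB0 with h | h
    · rw [← h]
      have : (0 : ℤ) ≤ X := Int.natCast_nonneg _
      linarith
    · have h5 : 1 ≤ B := h
      nlinarith
  have h5 : (({δ : 𝓞 K | absNorm (span {δ}) ≤ X}.ncard : ℕ) : ℤ) ≤ 21 * X + 3 := by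
    refine le_trans ?_ h4
    exact_mod_cast h1.trans h2
  exact_mod_cast h5

theorem y3_all (F : Fld K) (X : ℕ) : (allClasses K X).Finite ∧
    ((allClasses K X).ncard : ℝ) ≤ 21 * X + 3 := by
  obtain ⟨h1, h2⟩ := y3_count F X
  have h3 := h1.image (fun δ : 𝓞 K => (Quotient.mk _ (TTS.Ws (PPS.dd (PPS.dat F) δ)) : Cls K))
  refine ⟨h3.subset (y3_subset F X), ?_⟩
  have h4 := Set.ncard_le_ncard (y3_subset F X) h3
  have h5 := Set.ncard_image_le (f := fun δ : 𝓞 K => (Quotient.mk _ (TTS.Ws (PPS.dd (PPS.dat F) δ)) : Cls K)) h1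
  have h6 : ((allClasses K X).ncard : ℝ) ≤ ({δ : 𝓞 K | absNorm (span {δ}) ≤ X}.ncard : ℝ) := by
    exact_mod_cast h4.trans h5
  exact h6.trans h2

/-- a positive proportion of ALL elliptic curves over `ℚ(√-7)` with complex multiplication by the ring of integers -/
theorem final_all {K : Type} [Field K] [NumberField K] (hK : Module.finrank ℚ K = 2)
    (hr : ∃ r : K, r ^ 2 = -7) {Q : WeierstrassCurve K → Prop}
    (hQ : ∀ E, SBSD2.TwoPartRankZero E → Q E) :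
    (∀ X : ℕ, (allClasses K X).Finite) ∧
    (∃ (c : ℝ) (X0 : ℕ), 0 < c ∧ ∀ X : ℕ, X0 ≤ X →
      c * ((allClasses K X).ncard : ℝ) ≤ ((classes K Q X).ncard : ℝ)) := by
  obtain ⟨-, ⟨c, X1, hc, h1⟩, h2⟩ := final hK hr hQ
  obtain ⟨r, hr⟩ := hr
  let F : Fld K := ⟨r, hr, hK⟩
  refine ⟨fun X => (y3_all F X).1, c / 96, ?_⟩
  obtain ⟨X2, h3⟩ := h2 (1 / 4) (by norm_num)
  refine ⟨max (max X1 X2) 1, by positivity, fun X hX => ?_⟩
  have hX1 : X1 ≤ X := le_trans (le_max_left _ _) (le_trans (le_max_left _ _) hX)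
  have hX2 : X2 ≤ X := le_trans (le_max_right _ _) (le_trans (le_max_left _ _) hX)
  have hX3 : (1 : ℝ) ≤ X := by exact_mod_cast le_trans (le_max_right _ _) hX
  have g1 := h1 X hX1
  have g2 := h3 X hX2
  have g3 := (y3_all F X).2
  calc c / 96 * ((allClasses K X).ncard : ℝ) ≤ c / 96 * (21 * X + 3) := by gcongr
    _ ≤ c / 96 * (24 * X) := by
        gcongr
        linarith
    _ = 1 / 4 * (c * X) := by ring
    _ ≤ 1 / 4 * ((classes K (fun _ => True) X).ncard : ℝ) := by gcongr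
    _ ≤ _ := g2

end PP
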