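import Pool.Agent.PP.Y3
import Pool.Agent.TTS.Main

set_option autoImplicit false

open NumberField Ideal IsDedekindDomain
open scoped Classical

/-!
# [P7-Y4] the final statement
-/

namespace PP

/-- the isomorphism classes of the curves with `j = -3375`, `badNorm ≤ X` and `P` -/
def fam (K : Type) [Field K] [NumberField K] (P : WeierstrassCurve K → Prop) (X : ℕ) :
    Set (Cls K) :=
  {c | ∃ E : WeierstrassCurve K, Quotient.mk _ E = c ∧ (∃ _ : E.IsElliptic, E.j = -3375) ∧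
    badNorm E ≤ X ∧ P E}

section
variable {K : Type} [Field K] [NumberField K]

theorem val_le_of_den (v : HeightOneSpectrum (𝓞 K)) {x : K} {m : ℕ}
    (hm : (m : 𝓞 K) ∉ v.asIdeal) (h : ∃ b : 𝓞 K, (b : K) = m * x) : v.valuation K x ≤ 1 := by
  obtain ⟨b, hb⟩ := h
  have h1 : v.valuation K (m : K) = 1 := by
    have := (HeightOneSpectrum.valuation_eq_one_iff_notMem (K := K) v (r := (m : 𝓞 K))).2 hm
    rwa [map_natCast] at this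
  have h2 : v.valuation K ((b : 𝓞 K) : K) ≤ 1 := v.valuation_le_one b
  rw [hb, map_mul, h1, one_mul] at h2
  exact h2

/-- an elliptic curve over a number field has only finitely many primes of bad reduction -/
theorem finite_bad (E : WeierstrassCurve K) (hΔ : E.Δ ≠ 0) :
    {v : HeightOneSpectrum (𝓞 K) | ¬ TU.GoodAt v E}.Finite := by
  obtain ⟨n₁, hn₁, h₁⟩ := TTS.w0_den E.a₁
  obtain ⟨n₂, hn₂, h₂⟩ := TTS.w0_den E.a₂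
  obtain ⟨n₃, hn₃, h₃⟩ := TTS.w0_den E.a₃
  obtain ⟨n₄, hn₄, h₄⟩ := TTS.w0_den E.a₄
  obtain ⟨n₆, hn₆, h₆⟩ := TTS.w0_den E.a₆
  obtain ⟨n₇, hn₇, h₇⟩ := TTS.w0_den E.Δ
  obtain ⟨n₈, hn₈, h₈⟩ := TTS.w0_den (E.Δ)⁻¹
  have hne : n₁ * n₂ * n₃ * n₄ * n₆ * n₇ * n₈ ≠ 0 := by
    simp only [ne_eq, mul_eq_zero, not_or]
    exact ⟨⟨⟨⟨⟨⟨hn₁, hn₂⟩, hn₃⟩, hn₄⟩, hn₆⟩, hn₇⟩, hn₈⟩
  have hne' : ((n₁ * n₂ * n₃ * n₄ * n₆ * n₇ * n₈ : ℕ) : 𝓞 K) ≠ 0 := Nat.cast_ne_zero.2 hne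
  refine (Ideal.finite_factors (I := span {((n₁ * n₂ * n₃ * n₄ * n₆ * n₇ * n₈ : ℕ) : 𝓞 K)})
    (by rwa [Ne, Ideal.zero_eq_bot, Ideal.span_singleton_eq_bot])).subset ?_
  intro v hv
  rw [Set.mem_ofPred_eq] at hv ⊢
  rw [Ideal.dvd_span_singleton]
  by_contra hmem
  have hm : ∀ {m : ℕ}, m ∣ n₁ * n₂ * n₃ * n₄ * n₆ * n₇ * n₈ → (m : 𝓞 K) ∉ v.asIdeal := by
    rintro m ⟨k, hk⟩ h
    apply hmem
    rw [hk, Nat.cast_mul]
    exact Ideal.mul_mem_right _ _ h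
  apply hv
  have k₇ := val_le_of_den v (hm (⟨n₁ * n₂ * n₃ * n₄ * n₆ * n₈, by ring⟩ : n₇ ∣ _)) h₇
  have k₈ := val_le_of_den v (hm (⟨n₁ * n₂ * n₃ * n₄ * n₆ * n₇, by ring⟩ : n₈ ∣ _)) h₈
  refine ⟨1, ?_⟩
  rw [one_smul]
  refine ⟨val_le_of_den v (hm (⟨n₂ * n₃ * n₄ * n₆ * n₇ * n₈, by ring⟩ : n₁ ∣ _)) h₁,
    val_le_of_den v (hm (⟨n₁ * n₃ * n₄ * n₆ * n₇ * n₈, by ring⟩ : n₂ ∣ _)) h₂,
    val_le_of_den v (hm (⟨n₁ * n₂ * n₄ * n₆ * n₇ * n₈, by ring⟩ : n₃ ∣ _)) h₃,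
    val_le_of_den v (hm (⟨n₁ * n₂ * n₃ * n₆ * n₇ * n₈, by ring⟩ : n₄ ∣ _)) h₄,
    val_le_of_den v (hm (⟨n₁ * n₂ * n₃ * n₄ * n₇ * n₈, by ring⟩ : n₆ ∣ _)) h₆,
    le_antisymm k₇ ?_⟩
  rw [map_inv₀] at k₈
  have h0 : 0 < v.valuation K E.Δ := zero_lt_iff.2 ((_root_.map_ne_zero _).2 hΔ)
  exact (inv_le_one₀ h0).1 k₈

/-- good reduction above `2` -/
def GoodTwo (E : WeierstrassCurve K) : Prop :=
  ∀ v : HeightOneSpectrum (𝓞 K), (2 : 𝓞 K) ∈ v.asIdeal → TU.GoodAt v E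

theorem fam_of (Q : WeierstrassCurve K → Prop) (X : ℕ) :
    fam K (fun E => GoodTwo E ∧ ∀ C : WeierstrassCurve.VariableChange K, Q (C • E)) X =
      classes K Q X := by
  ext c
  constructor
  · rintro ⟨E, h1, h2, h3, h4, h5⟩
    exact ⟨E, h1, ⟨h2, h4⟩, h3, h5⟩
  · rintro ⟨E, h1, ⟨h2, h4⟩, h3, h5⟩
    exact ⟨E, h1, h2, h3, h4, h5⟩

theorem fam_good (X : ℕ) : fam K GoodTwo X = classes K (fun _ => True) X := by
  rw [← fam_of]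
  unfold fam
  simp

theorem fam_all (X : ℕ) : fam K (fun _ => True) X = allClasses K X := by
  unfold fam allClasses
  simp

end

/-- **the final statement** -/
theorem final2 {K : Type} [Field K] [NumberField K] (hK : Module.finrank ℚ K = 2)
    (hr : ∃ r : K, r ^ 2 = -7) {Q : WeierstrassCurve K → Prop}
    (hQ : ∀ E, SBSD2.TwoPartRankZero E → Q E) :
    (∀ E : WeierstrassCurve K, (∃ _ : E.IsElliptic, E.j = -3375) →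
      {v : HeightOneSpectrum (𝓞 K) | ¬ TU.GoodAt v E}.Finite) ∧
    (∀ X : ℕ, (fam K (fun _ => True) X).Finite) ∧
    (∀ c : ℝ, c < 188 / 651 → ∃ X0 : ℕ, ∀ X : ℕ, X0 ≤ X →
      c * ((fam K GoodTwo X).ncard : ℝ) ≤ ((fam K (fun E => GoodTwo E ∧
        ∀ C : WeierstrassCurve.VariableChange K, Q (C • E)) X).ncard : ℝ)) ∧
    (∃ (c : ℝ) (X0 : ℕ), 0 < c ∧ ∀ X : ℕ, X0 ≤ X →
      c * X ≤ ((fam K GoodTwo X).ncard : ℝ)) ∧
    (∃ (c : ℝ) (X0 : ℕ), 0 < c ∧ ∀ X : ℕ, X0 ≤ X →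
      c * ((fam K (fun _ => True) X).ncard : ℝ) ≤ ((fam K (fun E => GoodTwo E ∧
        ∀ C : WeierstrassCurve.VariableChange K, Q (C • E)) X).ncard : ℝ)) := by
  obtain ⟨-, ⟨c0, X0, hc0, h0⟩, h1⟩ := final hK hr hQ
  obtain ⟨hfin, c1, X1, hc1, h2⟩ := final_all hK hr hQ
  refine ⟨fun E ⟨hE, _⟩ => finite_bad E hE.isUnit.ne_zero, fun X => ?_, ?_, ?_, ?_⟩
  · rw [fam_all]
    exact hfin X
  · intro c hc
    obtain ⟨X2, h⟩ := h1 c hc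
    refine ⟨X2, fun X hX => ?_⟩
    rw [fam_of, fam_good]
    exact h X hX
  · refine ⟨c0, X0, hc0, fun X hX => ?_⟩
    rw [fam_good]
    exact h0 X hX
  · refine ⟨c1, X1, hc1, fun X hX => ?_⟩
    rw [fam_of, fam_all]
    exact h2 X hX

end PP
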